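import Pool.Agent.K.MP_ec89a0_al.C1

namespace Pool.Agent.Results.MP_ec89a0_al.FittingHeight

open Pool.Agent.FitW in
/-- A nontrivial word killed by all epimorphisms from the free group of rank two onto a finite
group bounds the Fitting height of every solvable quotient of the group. -/
theorem result (w : FreeGroup (Fin 2)) (hw : w ≠ 1) : ∃ h : ℕ,
    ∀ (G : Type) [Group G] [Finite G],
      (∃ a b : G, Subgroup.closure ({a, b} : Set G) = ⊤) →
      (∀ φ : FreeGroup (Fin 2) →* G, Function.Surjective φ → φ w = 1) →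
      ∀ (H : Type) [Group H] [Group.IsSolvable H] (f : G →* H), Function.Surjective f →
        ∃ N : ℕ → Subgroup H, N 0 = ⊤ ∧ N h = ⊥ ∧ (∀ j, (N j).Normal) ∧
          ∀ j, N (j + 1) ≤ N j ∧ ∃ k, (N j).lowerCentralSeries k ≤ N (j + 1) := by
  obtain ⟨h, hh⟩ := height_bound w hw
  refine ⟨h, ?_⟩
  intro G _ _ ⟨a, b, hab⟩ hdie H _ _ f hf
  have : Finite H := Finite.of_surjective f hf
  have hgen : ∃ π : Fin 2 → G, Gen π := by
    refine ⟨![a, b], ?_⟩
    unfold Gen
    rw [← hab]
    congr 1
    ext x
    simp [eq_comm, or_comm]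
  refine hh H ⟨f a, f b, ?_⟩ ?_
  · have := congrArg (Subgroup.map f) hab
    rw [MonoidHom.map_closure, Set.image_pair, ← MonoidHom.range_eq_map,
      MonoidHom.range_eq_top.mpr hf] at this
    exact this
  · intro φ hφ
    choose π hπ using fun j : Fin 2 => hf (φ (FreeGroup.of j))
    have hcomp : ∀ π' : Fin 2 → G, (∀ j, f (π' j) = φ (FreeGroup.of j)) →
        f.comp (FreeGroup.lift π') = φ := by
      intro π' h'
      ext j
      simp [h' j]
    have hsup : Subgroup.closure (Set.range π) ⊔ f.ker = ⊤ := by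
      rw [eq_top_iff]
      intro g _
      obtain ⟨v, hv⟩ := hφ (f g)
      have h1 : FreeGroup.lift π v ∈ Subgroup.closure (Set.range π) := by
        rw [← FreeGroup.range_lift_eq_closure]
        exact ⟨v, rfl⟩
      have h2 : (FreeGroup.lift π v)⁻¹ * g ∈ f.ker := by
        have := DFunLike.congr_fun (hcomp π hπ) v
        rw [MonoidHom.comp_apply] at this
        rw [MonoidHom.mem_ker, map_mul, map_inv, this, hv, inv_mul_cancel]
      have := Subgroup.mul_mem _ (Subgroup.mem_sup_left h1 : _ ∈ _ ⊔ f.ker)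
        (Subgroup.mem_sup_right h2)
      simpa using this
    obtain ⟨π', hπ', hcong⟩ := gaschuetz f.ker hgen π hsup
    have h3 : ∀ j, f (π' j) = φ (FreeGroup.of j) := by
      intro j
      have := hcong j
      rw [MonoidHom.mem_ker, map_mul, map_inv, mul_inv_eq_one] at this
      rw [this, hπ j]
    rw [← hcomp π' h3, MonoidHom.comp_apply, hdie _ hπ'.surjective, map_one]

end Pool.Agent.Results.MP_ec89a0_al.FittingHeight
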