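import Pool.Agent.K.MP_ec89a0_al.C7

namespace Pool.Agent.Results.MP_ec89a0_al.FourSyllables

open Pool.Agent.LawP in
/-- For a nontrivial word `w = x ^ k * y ^ l * x ^ m * y ^ n` there is a bound `R` such that `w`
survives an epimorphism onto a member of every family of finite solvable two generator groups
without a common law whose Sylow subgroups satisfy a common law for each prime up to `R`. -/
theorem result (k l m n : ℤ) (w : FreeGroup (Fin 2))
    (hw : w = FreeGroup.of 0 ^ k * FreeGroup.of 1 ^ l * FreeGroup.of 0 ^ m * FreeGroup.of 1 ^ n)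
    (hne : w ≠ 1) :
    ∃ R : ℕ, ∀ (G : ℕ → Type) [∀ i, Group (G i)] [∀ i, Finite (G i)]
      [∀ i, Group.IsSolvable (G i)],
      (∀ i, ∃ a b : G i, Subgroup.closure ({a, b} : Set (G i)) = ⊤) →
      (∀ v : FreeGroup ℕ, v ≠ 1 → ∃ i, ∃ f : ℕ → G i, FreeGroup.lift f v ≠ 1) →
      (∀ p : ℕ, p.Prime → p ≤ R → ∃ v : FreeGroup ℕ, v ≠ 1 ∧
        ∀ i, ∀ P : Sylow p (G i), ∀ f : ℕ → P, FreeGroup.lift f v = 1) →
      ∃ i, ∃ φ : FreeGroup (Fin 2) →* G i, Function.Surjective φ ∧ φ w ≠ 1 := by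
  subst hw
  obtain ⟨N, -, h⟩ := core_four hne
  obtain ⟨R, hR⟩ := survive_of_core _ hne h
  exact ⟨R, fun G _ _ _ hgen hlaw hsyl => hR G hgen hlaw fun p hp hle _ => hsyl p hp hle⟩

end Pool.Agent.Results.MP_ec89a0_al.FourSyllables
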