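import Pool.Agent.K.MP_ec89a0_al.C8
import Pool.Agent.K.MP_ec89a0_al.C4

namespace Pool.Agent.Results.MP_ec89a0_al.NilpotentFamilies

open Pool.Agent.LawP in
/-- For an element `w` outside the second derived subgroup of the free group of rank two there is
a bound `R` such that `w` survives an epimorphism onto a member of every family of finite
nilpotent two generator groups without a common law whose Sylow subgroups satisfy a common law for
each prime up to `R`. -/
theorem result (w : FreeGroup (Fin 2)) (hw : w ∉ derivedSeries (FreeGroup (Fin 2)) 2) :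
    ∃ R : ℕ, ∀ (G : ℕ → Type) [∀ i, Group (G i)] [∀ i, Finite (G i)]
      [∀ i, Group.IsNilpotent (G i)],
      (∀ i, ∃ a b : G i, Subgroup.closure ({a, b} : Set (G i)) = ⊤) →
      (∀ v : FreeGroup ℕ, v ≠ 1 → ∃ i, ∃ f : ℕ → G i, FreeGroup.lift f v ≠ 1) →
      (∀ p : ℕ, p.Prime → p ≤ R → ∃ v : FreeGroup ℕ, v ≠ 1 ∧
        ∀ i, ∀ P : Sylow p (G i), ∀ f : ℕ → P, FreeGroup.lift f v = 1) →
      ∃ i, ∃ φ : FreeGroup (Fin 2) →* G i, Function.Surjective φ ∧ φ w ≠ 1 := by
  obtain ⟨R, hR0, hR⟩ := core_metabelian w hw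
  refine ⟨R, fun G _ _ _ hgen hlaw hsyl => ?_⟩
  by_contra hc
  push Not at hc
  have hw1 : w ≠ 1 := fun e => hw (e ▸ Subgroup.one_mem _)
  obtain ⟨V, hV, hVk⟩ := exists_big_small' G (fun p => p ≤ R) hsyl R
  have hW : Big (vals w (commutator FN)) := Big.vals hw1 (big_derived 1)
  obtain ⟨u, hu, hu1⟩ := (hV.comm ((hW.comm hW).comm hW)).exists_ne
  obtain ⟨i, f, hf⟩ := hlaw u hu1
  refine hf (kills_of_sylow (fun p hp P => ?_) f u hu)
  rcases le_or_gt p R with hle | hlt
  · exact (hVk p hp hle hle i P).comm_left _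
  · refine Kills.comm_right ?_ _
    obtain ⟨θ, hθ⟩ := exists_surj_sylow hp P
    obtain ⟨x, hx⟩ := gn_of_pair (hgen i)
    have h1 := hR P (Nat.card P) (fun g => pow_card_eq_one')
      (coprime_card_of_lt hp P.isPGroup' hR0 hlt) ⟨_, hx.map θ hθ⟩
      (die_of_surj ⟨x, hx⟩ (fun y hy => hc i _ hy.surj) θ hθ)
    intro g y hy
    have h2 : (vals w (commutator FN)).map (FreeGroup.lift g) ≤ vals w (commutator P) :=
      map_vals_le _ w (map_derivedSeries_le_derivedSeries (FreeGroup.lift g) 1)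
    have h3 := Subgroup.mem_map_of_mem (FreeGroup.lift g) hy
    rw [Subgroup.map_commutator, Subgroup.map_commutator] at h3
    have h4 := Subgroup.commutator_mono (Subgroup.commutator_mono h2 h2) h2 h3
    rwa [h1] at h4

end Pool.Agent.Results.MP_ec89a0_al.NilpotentFamilies
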