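import Pool.Agent.K.MP_ec89a0_al.C7

namespace Pool.Agent.Results.MP_ec89a0_al.SurfacePowers

open Pool.Agent.LawP in
/-- For `e = 1` or `e = -1` and positive `n` there is a bound `R` such that the n-th power of
`x * y * x ^ e * y⁻¹` survives an epimorphism onto a member of every family of finite solvable two
generator groups without a common law whose Sylow subgroups satisfy a common law for each prime up
to `R` that is two or is not one modulo `n`. -/
theorem result (e : ℤ) (he : e = 1 ∨ e = -1) (n : ℕ) (hn : 0 < n) :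
    ∃ R : ℕ, ∀ (G : ℕ → Type) [∀ i, Group (G i)] [∀ i, Finite (G i)]
      [∀ i, Group.IsSolvable (G i)],
      (∀ i, ∃ a b : G i, Subgroup.closure ({a, b} : Set (G i)) = ⊤) →
      (∀ v : FreeGroup ℕ, v ≠ 1 → ∃ i, ∃ f : ℕ → G i, FreeGroup.lift f v ≠ 1) →
      (∀ p : ℕ, p.Prime → p ≤ R → (p = 2 ∨ ¬ n ∣ p - 1) → ∃ v : FreeGroup ℕ, v ≠ 1 ∧
        ∀ i, ∀ P : Sylow p (G i), ∀ f : ℕ → P, FreeGroup.lift f v = 1) →
      ∃ i, ∃ φ : FreeGroup (Fin 2) →* G i, Function.Surjective φ ∧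
        φ ((FreeGroup.of 0 * FreeGroup.of 1 * FreeGroup.of 0 ^ e * (FreeGroup.of 1)⁻¹) ^ n) ≠ 1 := by
  obtain ⟨R, hR⟩ := survive_of_core _
    (fun h => surface_ne_one he (pow_left_injective hn.ne' (h.trans (one_pow n).symm)))
    (core_surface hn he)
  refine ⟨R, fun G _ _ _ hgen hlaw hsyl => hR G hgen hlaw fun p hp hle h => hsyl p hp hle ?_⟩
  by_contra hc
  rw [not_or, not_not] at hc
  exact h (Nat.lcm_dvd (hp.even_sub_one hc.1).two_dvd hc.2)

end Pool.Agent.Results.MP_ec89a0_al.SurfacePowers
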